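import Pool.Agent.U503.HP.Stm

/-!
# Project SPR: spreading infinite products of Hamiltonian homeomorphisms of the ball
-/

set_option autoImplicit false

open Set Filter Topology Function
open Pool.Agent.Y453.HB Pool.Agent.R773.HN Pool.Agent.N235.DH
open scoped commutatorElement

namespace Pool.Agent.U503.SPR

/-- the vector with the coordinates `a i`, `b i` -/
def gv (n : ℕ) (a b : Fin n → ℕ) : E n := (fun i => (a i : ℝ), fun i => (b i : ℝ))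

/-- Folding: with `h (s + 1)` the product of the `L` translates of `h s`, the power
`h 0 ^ (L ^ M)` is `h M` up to `M` commutators. -/
def S_A2 : Prop := ∀ (G : Type) [Group G] (Γ : Subgroup G) (L M : ℕ) (K : ℕ → Subgroup G)
  (κ : ℕ → G), 1 ≤ L → (∀ s ≤ M, K s ≤ Γ) → (∀ s < M, κ s ∈ Γ) →
  (∀ s < M, ∀ i < L, ∀ a ∈ K s, κ s ^ i * a * (κ s ^ i)⁻¹ ∈ K (s + 1)) →
  (∀ s < M, ∀ i < L, ∀ j < L, i ≠ j → ∀ a ∈ K s, ∀ b ∈ K s,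
    Commute (κ s ^ i * a * (κ s ^ i)⁻¹) (κ s ^ j * b * (κ s ^ j)⁻¹)) →
  ∀ h : ℕ → G, h 0 ∈ K 0 → (∀ s < M, h (s + 1) =
    (List.ofFn (fun i : Fin L => κ s ^ (i : ℕ) * h s * (κ s ^ (i : ℕ))⁻¹)).prod) →
  ∃ A B : Fin M → G, (∀ t, A t ∈ Γ ∧ B t ∈ Γ) ∧ h M ∈ Γ ∧
    h 0 ^ (L ^ M) = (List.ofFn (fun t => ⁅A t, B t⁆)).prod * h M

/-- The product of homeomorphisms with disjoint supports. -/
def S_DIS : Prop := ∀ (n L : ℕ) (f : ℕ → (E n ≃ₜ E n)) (A : ℕ → Set (E n)),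
  (∀ i < L, Supp (A i) (f i)) → (∀ i < L, ∀ j < L, i ≠ j → Disjoint (A i) (A j)) →
  (∀ i < L, ∀ y ∈ A i, (List.ofFn (fun i : Fin L => f i)).prod y = f i y) ∧
  ∀ y, (∀ i < L, y ∉ A i) → (List.ofFn (fun i : Fin L => f i)).prod y = y

/-- Boxes and translations in the unit ball, with the effect on a homeomorphism supported in a
small ball. -/
def S_G2 : Prop := ∀ (n L : ℕ) (δ : ℝ), 0 < n → 1 ≤ L → δ = 1 / (12 * n * L) →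
  ∃ (K : ℕ → Subgroup (E n ≃ₜ E n)) (κ : ℕ → (E n ≃ₜ E n)),
    (∀ s ≤ 2 * n, K s ≤ HamBar n) ∧ (∀ s < 2 * n, κ s ∈ HamBar n) ∧
    (∀ s < 2 * n, ∀ i < L, ∀ a ∈ K s, κ s ^ i * a * (κ s ^ i)⁻¹ ∈ K (s + 1)) ∧
    (∀ s < 2 * n, ∀ i < L, ∀ j < L, i ≠ j → ∀ a ∈ K s, ∀ b ∈ K s,
      Commute (κ s ^ i * a * (κ s ^ i)⁻¹) (κ s ^ j * b * (κ s ^ j)⁻¹)) ∧
    (∀ f ∈ HamBar n, Supp (D 0 δ) f → f ∈ K 0) ∧
    ∀ h : ℕ → (E n ≃ₜ E n), h 0 ∈ HamBar n → Supp (D 0 δ) (h 0) →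
      (∀ s < 2 * n, h (s + 1) =
        (List.ofFn (fun i : Fin L => κ s ^ (i : ℕ) * h s * (κ s ^ (i : ℕ))⁻¹)).prod) →
      (∀ a b : Fin n → ℕ, (∀ i, a i < L ∧ b i < L) → ∀ x ∈ D 0 δ,
        h (2 * n) ((3 * δ) • gv n a b + x) = (3 * δ) • gv n a b + h 0 x) ∧
      ∀ y, (∀ a b : Fin n → ℕ, (∀ i, a i < L ∧ b i < L) → y ∉ D ((3 * δ) • gv n a b) δ) →
        h (2 * n) y = y

/-- A map which is Lipschitz on disjoint balls, the identity on their boundaries and outside. -/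
def S_LIP : Prop := ∀ (n : ℕ) (ι : Type) (c : ι → E n) (ρ : ι → ℝ) (f : E n → E n) (C : ℝ),
  1 ≤ C → (∀ i, 0 < ρ i) → (∀ i j, i ≠ j → Disjoint (D (c i) (ρ i)) (D (c j) (ρ j))) →
  (∀ i x y, x ∈ D (c i) (ρ i) → y ∈ D (c i) (ρ i) → nm (f x - f y) ≤ C * nm (x - y)) →
  (∀ y, (∀ i, ρ i ≤ nm (y - c i)) → f y = y) → ∀ x y, nm (f x - f y) ≤ C * nm (x - y)

/-- The balls of the grid are disjoint and contained in the large ball. -/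
def S_DSJ : Prop := ∀ (n L : ℕ) (q : E n) (ρ : ℝ), 0 < n → 0 < ρ →
  (∀ a b a' b' : Fin n → ℕ, (a, b) ≠ (a', b') →
    Disjoint (D (q + (3 * ρ) • gv n a b) ρ) (D (q + (3 * ρ) • gv n a' b') ρ)) ∧
  ∀ a b : Fin n → ℕ, (∀ i, a i < L ∧ b i < L) →
    D (q + (3 * ρ) • gv n a b) ρ ⊆ D q (12 * n * L * ρ)

end Pool.Agent.U503.SPR
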