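import Pool.Agent.U503.SPR.Stm
import Pool.Agent.U503.HP.Fin

/-!
# Spreading infinite products of Hamiltonian homeomorphisms of the ball
-/

set_option autoImplicit false

open Set Filter Topology Function
open Pool.Agent.Y453.HB Pool.Agent.R773.HN Pool.Agent.N235.DH
open scoped commutatorElement

namespace Pool.Agent.U503.SPR

variable {n : ℕ}

/-- the admissible indices of the balls -/
def Idx (n : ℕ) (L : ℕ → ℕ) : Type :=
  {i : ℕ × (Fin n → ℕ) × (Fin n → ℕ) // ∀ j, i.2.1 j < L i.1 ∧ i.2.2 j < L i.1}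

/-- the centres of the balls -/
def ctr (q : ℕ → E n) (ρ : ℕ → ℝ) (k : ℕ) (a b : Fin n → ℕ) : E n :=
  q k + (3 * ρ k) • gv n a b

theorem ham_fix {φ : E n ≃ₜ E n} (h : φ ∈ HamBar n) {x : E n} (hx : 1 ≤ nm x) : φ x = x := by
  obtain ⟨K, -, h2, h3⟩ := cpt_supp h
  refine h3 x fun hK => ?_
  have := nm_lt_one (h2 hK)
  linarith

theorem ham_maps {φ : E n ≃ₜ E n} (h : φ ∈ HamBar n) {x : E n} (hx : nm x ≤ 1) :
    nm (φ x) ≤ 1 := by
  by_contra hcon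
  push Not at hcon
  have h1 : φ (φ x) = φ x := ham_fix h hcon.le
  have h2 : φ x = x := φ.injective h1
  rw [h2] at hcon
  linarith

theorem resc {c : E n} {ρ : ℝ} (hρ : 0 < ρ) {y : E n} (hy : y ∈ D c ρ) :
    ∃ x, nm x ≤ 1 ∧ y = c + ρ • x ∧ nm (y - c) = ρ * nm x := by
  have hy' : nm (y - c) ≤ ρ := hy
  obtain ⟨x, hx⟩ : ∃ x, x = ρ⁻¹ • (y - c) := ⟨_, rfl⟩
  have e : y - c = ρ • x := by rw [hx, smul_smul, mul_inv_cancel₀ hρ.ne', one_smul]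
  have e2 : nm (y - c) = ρ * nm x := by rw [e, nm_smul, abs_of_pos hρ]
  refine ⟨x, ?_, ?_, e2⟩
  · rw [e2] at hy'
    nlinarith
  · rw [← e, add_sub_cancel]

/-- the Lipschitz property of a patchwork -/
theorem lip_of (hLIP : S_LIP) (hDSJ : S_DSJ) (hn : 0 < n) {q : ℕ → E n} {ρ R : ℕ → ℝ}
    {L : ℕ → ℕ} (hρ : ∀ k, 0 < ρ k) (hLR : ∀ k, 12 * n * L k * ρ k ≤ R k)
    (hdis : ∀ j k, j ≠ k → Disjoint (D (q j) (R j)) (D (q k) (R k)))
    {Y : E n ≃ₜ E n} {ψ : ℕ → HamBar n}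
    (hY1 : ∀ k a b, (∀ i, a i < L k ∧ b i < L k) → ∀ x, nm x ≤ 1 →
      Y (ctr q ρ k a b + ρ k • x) = ctr q ρ k a b + ρ k • (ψ k : E n ≃ₜ E n) x)
    (hY2 : ∀ y, (∀ k a b, (∀ i, a i < L k ∧ b i < L k) → y ∉ D (ctr q ρ k a b) (ρ k)) → Y y = y)
    {C : ℝ} (hC : ∀ k x y, nm ((ψ k : E n ≃ₜ E n) x - (ψ k : E n ≃ₜ E n) y) ≤ C * nm (x - y)) :
    ∀ x y, nm (Y x - Y y) ≤ C * nm (x - y) := by
  have hC1 : 1 ≤ C := by
    obtain ⟨v, hv⟩ := exists_vec hn (show (0 : ℝ) < 2 by norm_num)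
    have h1 : nm ((2 : ℝ) • v) = 4 := by
      rw [nm_smul, hv]
      norm_num
    have h2 := hC 0 ((2 : ℝ) • v) v
    rw [ham_fix (ψ 0).2 (by rw [h1]; norm_num), ham_fix (ψ 0).2 (by rw [hv]; norm_num)] at h2
    have h3 : (2 : ℝ) • v - v = v := by rw [two_smul, add_sub_cancel_right]
    rw [h3, hv] at h2
    linarith
  have hd : ∀ i j : Idx n L, i ≠ j → Disjoint (D (ctr q ρ i.1.1 i.1.2.1 i.1.2.2) (ρ i.1.1))
      (D (ctr q ρ j.1.1 j.1.2.1 j.1.2.2) (ρ j.1.1)) := by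
    rintro ⟨⟨k, a, b⟩, hi⟩ ⟨⟨k', a', b'⟩, hj⟩ hij
    by_cases hk : k = k'
    · subst hk
      refine (hDSJ n (L k) (q k) (ρ k) hn (hρ k)).1 a b a' b' fun h => hij ?_
      apply Subtype.ext
      simp only [Prod.mk.injEq] at h
      simp only [Prod.mk.injEq, true_and]
      exact h
    · refine (hdis k k' hk).mono ?_ ?_
      · exact ((hDSJ n (L k) (q k) (ρ k) hn (hρ k)).2 a b hi).trans fun x hx => le_trans hx (hLR k)
      · exact ((hDSJ n (L k') (q k') (ρ k') hn (hρ k')).2 a' b' hj).trans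
          fun x hx => le_trans hx (hLR k')
  refine hLIP n (Idx n L) (fun i => ctr q ρ i.1.1 i.1.2.1 i.1.2.2) (fun i => ρ i.1.1) Y C hC1
    (fun i => hρ _) hd ?_ ?_
  · rintro ⟨⟨k, a, b⟩, hi⟩ x y hx hy
    obtain ⟨u, hu, rfl, -⟩ := resc (hρ k) hx
    obtain ⟨v, hv, rfl, -⟩ := resc (hρ k) hy
    simp only at hi ⊢
    rw [hY1 k a b hi u hu, hY1 k a b hi v hv, add_sub_add_left_eq_sub, add_sub_add_left_eq_sub,
      ← smul_sub, ← smul_sub, nm_smul, nm_smul, abs_of_pos (hρ k)]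
    have h1 := mul_le_mul_of_nonneg_left (hC k u v) (hρ k).le
    linarith
  · intro y hy
    by_cases h : ∃ k a b, (∀ i, a i < L k ∧ b i < L k) ∧ y ∈ D (ctr q ρ k a b) (ρ k)
    · obtain ⟨k, a, b, hab, hk⟩ := h
      have h1 := hy ⟨⟨k, a, b⟩, hab⟩
      simp only at h1
      obtain ⟨u, hu, e, e2⟩ := resc (hρ k) hk
      have h2 : 1 ≤ nm u := by
        rw [e2] at h1
        have := hρ k
        by_contra hcon
        push Not at hcon
        nlinarith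
      rw [e, hY1 k a b hab u hu, ham_fix (ψ k).2 h2]
    · push Not at h
      exact hY2 y h

/-- what is needed at each step `k` -/
theorem step (hA2 : S_A2) (hG2 : S_G2) (hn : 0 < n) {L : ℕ} (hL : 1 ≤ L) {δ : ℝ}
    (hδ : δ = 1 / (12 * n * L)) {g : E n ≃ₜ E n} (hg : g ∈ HamBar n) (hgs : Supp (D 0 δ) g) :
    ∃ (A B : Fin (2 * n) → (E n ≃ₜ E n)) (y : E n ≃ₜ E n), (∀ t, A t ∈ HamBar n ∧ B t ∈ HamBar n) ∧
      y ∈ HamBar n ∧ g ^ (L ^ (2 * n)) = (List.ofFn (fun t => ⁅A t, B t⁆)).prod * y ∧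
      (∀ a b : Fin n → ℕ, (∀ i, a i < L ∧ b i < L) → ∀ x ∈ D 0 δ,
        y ((3 * δ) • gv n a b + x) = (3 * δ) • gv n a b + g x) ∧
      ∀ w, (∀ a b : Fin n → ℕ, (∀ i, a i < L ∧ b i < L) → w ∉ D ((3 * δ) • gv n a b) δ) →
        y w = w := by
  obtain ⟨K, κ, g1, g2, g3, g4, g5, g6⟩ := hG2 n L δ hn hL hδ
  set h : ℕ → (E n ≃ₜ E n) := fun s => Nat.rec g (fun s f =>
    (List.ofFn (fun i : Fin L => κ s ^ (i : ℕ) * f * (κ s ^ (i : ℕ))⁻¹)).prod) s with hh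
  have h0 : h 0 = g := rfl
  have hs : ∀ s < 2 * n, h (s + 1) =
      (List.ofFn (fun i : Fin L => κ s ^ (i : ℕ) * h s * (κ s ^ (i : ℕ))⁻¹)).prod := fun s _ => rfl
  obtain ⟨A, B, h1, h2, h3⟩ := hA2 (E n ≃ₜ E n) (HamBar n) L (2 * n) K κ hL g1 g2 g3 g4 h
    (g5 g hg hgs) hs
  obtain ⟨h4, h5⟩ := g6 h hg hgs hs
  exact ⟨A, B, h (2 * n), h1, h2, h3, h4, h5⟩

theorem main_spr (hA2 : S_A2) (hG2 : S_G2) (hLIP : S_LIP) (hDSJ : S_DSJ)
    (hDL : Pool.Agent.U503.HP.S_DL) (hINF : Pool.Agent.U503.HP.S_INF) (hn : 0 < n) (z : E n)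
    {r : ℝ} (hr2 : r < 1 / 2) (hz : nm z + r < 1) (q : ℕ → E n) (ρ R : ℕ → ℝ) (L : ℕ → ℕ)
    (hL1 : ∀ k, 1 ≤ L k) (hρ : ∀ k, 0 < ρ k) (hLR : ∀ k, 12 * n * L k * ρ k ≤ R k)
    (hR0 : Tendsto R atTop (𝓝 0))
    (hdis : ∀ j k, j ≠ k → Disjoint (D (q j) (R j)) (D (q k) (R k)))
    (hsub : ∀ k, D (q k) (R k) ⊆ D z r) (φ : ℕ → HamBar n) :
    ∃ X Y : HamBar n, (∀ k x, nm x ≤ 1 → (X : E n ≃ₜ E n) (q k + ρ k • x) =
        q k + ρ k • ((φ k ^ (L k ^ (2 * n)) : HamBar n) : E n ≃ₜ E n) x) ∧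
      (∀ y, (∀ k, y ∉ D (q k) (ρ k)) → (X : E n ≃ₜ E n) y = y) ∧
      (∀ k a b, (∀ i, a i < L k ∧ b i < L k) → ∀ x, nm x ≤ 1 → (Y : E n ≃ₜ E n)
        (ctr q ρ k a b + ρ k • x) = ctr q ρ k a b + ρ k • (φ k : E n ≃ₜ E n) x) ∧
      (∀ y, (∀ k a b, (∀ i, a i < L k ∧ b i < L k) → y ∉ D (ctr q ρ k a b) (ρ k)) →
        (Y : E n ≃ₜ E n) y = y) ∧
      ((X * Y⁻¹ : HamBar n) : E n ≃ₜ E n) ∈ Mono (HamBar n) ∧
      (∀ C : ℝ, (∀ k x y, nm ((φ k : E n ≃ₜ E n) x - (φ k : E n ≃ₜ E n) y) ≤ C * nm (x - y)) →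
        ∀ x y, nm ((Y : E n ≃ₜ E n) x - (Y : E n ≃ₜ E n) y) ≤ C * nm (x - y)) ∧
      ∀ C : ℝ, (∀ k x y, nm ((((φ k)⁻¹ : HamBar n) : E n ≃ₜ E n) x - (((φ k)⁻¹ : HamBar n) : E n ≃ₜ E n) y) ≤
        C * nm (x - y)) → ∀ x y, nm (((Y⁻¹ : HamBar n) : E n ≃ₜ E n) x - ((Y⁻¹ : HamBar n) : E n ≃ₜ E n) y) ≤
        C * nm (x - y) := by
  have hn' : (0 : ℝ) < n := by exact_mod_cast hn
  have hn1 : (1 : ℝ) ≤ n := by exact_mod_cast hn
  have hL1' : ∀ k, (1 : ℝ) ≤ L k := fun k => by exact_mod_cast hL1 k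
  have hRpos : ∀ k, 0 < R k := fun k => by
    have := hL1' k
    have := hρ k
    have h1 : 0 < 12 * n * L k * ρ k := by positivity
    linarith [hLR k]
  -- `r > 0`
  have hr : 0 < r := by
    by_contra hcon
    push Not at hcon
    obtain ⟨v, hv⟩ := exists_vec hn (hRpos 0)
    have h1 : nm (q 0 - z) ≤ r := hsub 0 (mem_D_self _ (hRpos 0).le)
    have h2 : nm (q 0 + v - z) ≤ r := hsub 0 (by
      show nm (q 0 + v - q 0) ≤ R 0
      rw [add_sub_cancel_left, hv])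
    have h3 : v = (q 0 + v - z) - (q 0 - z) := by abel
    have h4 : nm v ≤ nm (q 0 + v - z) + nm (q 0 - z) := by
      have h5 := nm_add (q 0 + v - z) (-(q 0 - z))
      rw [nm_neg, ← sub_eq_add_neg, ← h3] at h5
      exact h5
    have := hRpos 0
    linarith
  set δ : ℕ → ℝ := fun k => 1 / (12 * n * L k) with hδdef
  have hδ : ∀ k, 0 < δ k := fun k => by
    have := hL1' k
    simp only [hδdef]
    positivity
  have hδ1 : ∀ k, δ k < 1 := fun k => by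
    have := hL1' k
    simp only [hδdef]
    rw [div_lt_one (by positivity)]
    nlinarith
  set R' : ℕ → ℝ := fun k => 12 * n * L k * ρ k with hR'def
  have hR' : ∀ k, 0 < R' k := fun k => by
    have := hL1' k
    have := hρ k
    simp only [hR'def]
    positivity
  have hR'R : ∀ k, R' k ≤ R k := hLR
  have hR'δ : ∀ k, R' k * δ k = ρ k := fun k => by
    have := hL1' k
    simp only [hR'def, hδdef]
    field_simp
  have hDD : ∀ k, D (q k) (R' k) ⊆ D (q k) (R k) := fun k x hx => le_trans hx (hR'R k)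
  choose d hd using fun k => Pool.Agent.U503.HP.dl_hom hDL hn (hδ k) (hδ1 k)
  have hstep := fun k => step hA2 hG2 hn (hL1 k) (rfl : δ k = 1 / (12 * n * L k))
    (hd k (φ k)).1 (hd k (φ k)).2.1
  choose A B y hAB hy hAy hy1 hy2 using hstep
  -- the infinite product
  obtain ⟨P, hP⟩ := hINF n z r q R' hn hz hR' (by
    refine squeeze_zero (fun k => (hR' k).le) hR'R hR0) (fun j k hjk =>
      (hdis j k hjk).mono (hDD j) (hDD k)) (fun k => (hDD k).trans (hsub k))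
  have hPs : ∀ F, Supp (D z r) (P F) := fun F y hy => (hP F).2.2 y fun k hk =>
    hy (hsub k (hDD k hk))
  set FX : ℕ → HamBar n := fun k => ⟨d k (φ k ^ (L k ^ (2 * n))), (hd k _).1⟩ with hFX
  set FY : ℕ → HamBar n := fun k => ⟨y k, hy k⟩ with hFY
  set A' : Fin (2 * n) → ℕ → HamBar n := fun t k => ⟨A k t, (hAB k t).1⟩ with hA'
  set B' : Fin (2 * n) → ℕ → HamBar n := fun t k => ⟨B k t, (hAB k t).2⟩ with hB'
  have hFe : FX = (List.ofFn (fun t => ⁅A' t, B' t⁆)).prod * FY := by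
    funext k
    rw [Pi.mul_apply, Pi.list_prod_apply, List.map_ofFn]
    apply Subtype.ext
    change d k (φ k ^ (L k ^ (2 * n))) = (HamBar n).subtype _ * y k
    rw [map_pow, hAy k, map_list_prod, List.map_ofFn]
    rfl
  have hXY : P FX * (P FY)⁻¹ ∈ Mono (HamBar n) := by
    rw [hFe, map_mul, mul_inv_cancel_right, map_list_prod, List.map_ofFn]
    refine Subgroup.list_prod_mem _ fun x hx => ?_
    obtain ⟨t, rfl⟩ := (List.mem_ofFn' _ _).1 hx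
    rw [comp_apply, map_commutatorElement]
    exact comm_ball Pool.Agent.R773.HN.hT Pool.Agent.R773.HN.hR hn
      ⟨fun u hu => isHam_mem hu, le_rfl⟩ hr hr2 hz (hP _).1 (hP _).1 (hPs _) (hPs _)
  -- the values of `Y`
  have hYv : ∀ k a b, (∀ i, a i < L k ∧ b i < L k) → ∀ x, nm x ≤ 1 → P FY
        (ctr q ρ k a b + ρ k • x) = ctr q ρ k a b + ρ k • (φ k : E n ≃ₜ E n) x := by
    intro k a b hab x hx
    have e : ∀ v : E n, ctr q ρ k a b + ρ k • v =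
        q k + R' k • ((3 * δ k) • gv n a b + δ k • v) := by
      intro v
      unfold ctr
      rw [smul_add, smul_smul, smul_smul, hR'δ, show R' k * (3 * δ k) = 3 * (R' k * δ k) by ring,
        hR'δ, add_assoc]
    have hxd : δ k • x ∈ D (0 : E n) (δ k) := by
      show nm (δ k • x - 0) ≤ δ k
      rw [sub_zero, nm_smul, abs_of_pos (hδ k)]
      have := (hδ k).le
      nlinarith
    have hu : nm ((3 * δ k) • gv n a b + δ k • x) ≤ 1 := by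
      have h1 := (hDSJ n (L k) 0 (δ k) hn (hδ k)).2 a b hab
      have h2 : (3 * δ k) • gv n a b + δ k • x ∈ D ((0 : E n) + (3 * δ k) • gv n a b) (δ k) := by
        show nm ((3 * δ k) • gv n a b + δ k • x - (0 + (3 * δ k) • gv n a b)) ≤ δ k
        rw [zero_add, add_sub_cancel_left]
        have h3 : nm (δ k • x - 0) ≤ δ k := hxd
        rwa [sub_zero] at h3
      have h3 : nm ((3 * δ k) • gv n a b + δ k • x - 0) ≤ 12 * n * L k * δ k := h1 h2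
      have h4 : 12 * n * L k * δ k = 1 := by
        have := hL1' k
        simp only [hδdef]
        field_simp
      rw [sub_zero, h4] at h3
      exact h3
    rw [e x, (hP FY).2.1 k _ hu, e]
    congr 2
    change y k _ = _
    rw [hy1 k a b hab _ hxd, (hd k (φ k)).2.2 x]
  have hYo : ∀ w, (∀ k a b, (∀ i, a i < L k ∧ b i < L k) → w ∉ D (ctr q ρ k a b) (ρ k)) →
      P FY w = w := by
    intro w hw
    by_cases h : ∃ k, w ∈ D (q k) (R' k)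
    · obtain ⟨k, hk⟩ := h
      obtain ⟨u, hu, e, -⟩ := resc (hR' k) hk
      rw [e, (hP FY).2.1 k u hu]
      congr 2
      refine hy2 k u fun a b hab hm => hw k a b hab ?_
      have h1 : nm (u - (3 * δ k) • gv n a b) ≤ δ k := hm
      show nm (w - ctr q ρ k a b) ≤ ρ k
      have h2 : w - ctr q ρ k a b = R' k • (u - (3 * δ k) • gv n a b) := by
        rw [e]
        unfold ctr
        rw [smul_sub, smul_smul, show R' k * (3 * δ k) = 3 * (R' k * δ k) by ring, hR'δ,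
          add_sub_add_left_eq_sub]
      rw [h2, nm_smul, abs_of_pos (hR' k), ← hR'δ k]
      exact mul_le_mul_of_nonneg_left h1 (hR' k).le
    · push Not at h
      exact (hP FY).2.2 w h
  refine ⟨⟨P FX, (hP FX).1⟩, ⟨P FY, (hP FY).1⟩, fun k x hx => ?_, fun w hw => ?_, hYv, hYo, hXY,
    fun C hC => ?_, fun C hC => ?_⟩
  · have e : ρ k • x = R' k • (δ k • x) := by rw [smul_smul, hR'δ]
    change P FX (q k + ρ k • x) = _
    rw [e, (hP FX).2.1 k (δ k • x) (by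
      rw [nm_smul, abs_of_pos (hδ k)]
      have := hδ1 k
      have := nm_nonneg x
      have := (hδ k).le
      nlinarith)]
    have e2 : (FX k : E n ≃ₜ E n) (δ k • x) =
        δ k • ((φ k ^ (L k ^ (2 * n)) : HamBar n) : E n ≃ₜ E n) x :=
      (hd k (φ k ^ (L k ^ (2 * n)))).2.2 x
    rw [e2, smul_smul, hR'δ]
  · change P FX w = w
    by_cases h : ∃ k, w ∈ D (q k) (R' k)
    · obtain ⟨k, hk⟩ := h
      obtain ⟨x, hx1, e, -⟩ := resc (hR' k) hk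
      have hx2 : x ∉ D (0 : E n) (δ k) := by
        intro h
        apply hw k
        show nm (w - q k) ≤ ρ k
        have h1 : nm (x - 0) ≤ δ k := h
        rw [sub_zero] at h1
        rw [e, add_sub_cancel_left, nm_smul, abs_of_pos (hR' k), ← hR'δ k]
        exact mul_le_mul_of_nonneg_left h1 (hR' k).le
      have e2 : (FX k : E n ≃ₜ E n) x = x := (hd k (φ k ^ (L k ^ (2 * n)))).2.1 x hx2
      rw [e, (hP FX).2.1 k x hx1, e2]
    · push Not at h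
      exact (hP FX).2.2 w h
  · exact lip_of hLIP hDSJ hn hρ hLR hdis (Y := P FY) (ψ := φ) hYv hYo hC
  · refine lip_of hLIP hDSJ hn hρ hLR hdis (Y := (P FY)⁻¹) (ψ := fun k => (φ k)⁻¹) ?_ ?_ hC
    · intro k a b hab x hx
      have h1 : nm ((((φ k)⁻¹ : HamBar n) : E n ≃ₜ E n) x) ≤ 1 := ham_maps ((φ k)⁻¹).2 hx
      have h2 := hYv k a b hab _ h1
      have h3 : (φ k : E n ≃ₜ E n) ((((φ k)⁻¹ : HamBar n) : E n ≃ₜ E n) x) = x :=
        apply_inv_self (φ k : E n ≃ₜ E n) x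
      rw [h3] at h2
      rw [← h2, inv_apply_self]
    · intro w hw
      have h1 := hYo w hw
      conv_lhs => rw [← h1]
      exact inv_apply_self _ _

/-- The same in terms of the normal subgroups of `HamBar n`. -/
theorem main_spr' (hA2 : S_A2) (hG2 : S_G2) (hLIP : S_LIP) (hDSJ : S_DSJ)
    (hDL : Pool.Agent.U503.HP.S_DL) (hINF : Pool.Agent.U503.HP.S_INF) (hn : 0 < n) (z : E n)
    {r : ℝ} (hr2 : r < 1 / 2) (hz : nm z + r < 1) (q : ℕ → E n) (ρ R : ℕ → ℝ) (L : ℕ → ℕ)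
    (hL1 : ∀ k, 1 ≤ L k) (hρ : ∀ k, 0 < ρ k) (hLR : ∀ k, 12 * n * L k * ρ k ≤ R k)
    (hR0 : Tendsto R atTop (𝓝 0))
    (hdis : ∀ j k, j ≠ k → Disjoint (D (q j) (R j)) (D (q k) (R k)))
    (hsub : ∀ k, D (q k) (R k) ⊆ D z r) (φ : ℕ → HamBar n) :
    ∃ X Y : HamBar n, (∀ k x, nm x ≤ 1 → (X : E n ≃ₜ E n) (q k + ρ k • x) =
        q k + ρ k • ((φ k ^ (L k ^ (2 * n)) : HamBar n) : E n ≃ₜ E n) x) ∧
      (∀ y, (∀ k, y ∉ D (q k) (ρ k)) → (X : E n ≃ₜ E n) y = y) ∧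
      (∀ k a b, (∀ i, a i < L k ∧ b i < L k) → ∀ x, nm x ≤ 1 → (Y : E n ≃ₜ E n)
        (ctr q ρ k a b + ρ k • x) = ctr q ρ k a b + ρ k • (φ k : E n ≃ₜ E n) x) ∧
      (∀ y, (∀ k a b, (∀ i, a i < L k ∧ b i < L k) → y ∉ D (ctr q ρ k a b) (ρ k)) →
        (Y : E n ≃ₜ E n) y = y) ∧
      (∀ N : Subgroup (HamBar n), N.Normal → N ≠ ⊥ → X * Y⁻¹ ∈ N) ∧
      (∀ C : ℝ, (∀ k x y, nm ((φ k : E n ≃ₜ E n) x - (φ k : E n ≃ₜ E n) y) ≤ C * nm (x - y)) →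
        ∀ x y, nm ((Y : E n ≃ₜ E n) x - (Y : E n ≃ₜ E n) y) ≤ C * nm (x - y)) ∧
      ∀ C : ℝ, (∀ k x y, nm ((((φ k)⁻¹ : HamBar n) : E n ≃ₜ E n) x - (((φ k)⁻¹ : HamBar n) : E n ≃ₜ E n) y) ≤
        C * nm (x - y)) → ∀ x y, nm (((Y⁻¹ : HamBar n) : E n ≃ₜ E n) x - ((Y⁻¹ : HamBar n) : E n ≃ₜ E n) y) ≤
        C * nm (x - y) := by
  obtain ⟨X, Y, h1, h2, h3, h4, h5, h6, h7⟩ := main_spr hA2 hG2 hLIP hDSJ hDL hINF hn z hr2 hz q
    ρ R L hL1 hρ hLR hR0 hdis hsub φ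
  refine ⟨X, Y, h1, h2, h3, h4, fun N hN hne => ?_, h6, h7⟩
  have h3 : NormIn (HamBar n) (N.map (HamBar n).subtype) := by
    refine ⟨?_, ?_⟩
    · rintro _ ⟨x, -, rfl⟩
      exact x.2
    · rintro g hg _ ⟨x, hx, rfl⟩
      exact ⟨⟨g, hg⟩ * x * ⟨g, hg⟩⁻¹, hN.conj_mem x hx ⟨g, hg⟩, rfl⟩
  have h4 : N.map (HamBar n).subtype ≠ ⊥ := by
    intro h
    apply hne
    rw [eq_bot_iff]
    intro x hx
    have h5 : (x : E n ≃ₜ E n) ∈ N.map (HamBar n).subtype := ⟨x, hx, rfl⟩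
    rw [h, Subgroup.mem_bot] at h5
    rw [Subgroup.mem_bot]
    exact Subtype.ext h5
  obtain ⟨y, hy, hyx⟩ := Mono_le h3 h4 h5
  have h6 : y = X * Y⁻¹ := Subtype.ext hyx
  rwa [← h6]

end Pool.Agent.U503.SPR
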